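import Pool.Agent.H97.SHL.Targets

/-!
# Board shl_modules, row DTB: decision trees
-/

set_option autoImplicit false

open Finset Pool.Agent.H97.SHL

namespace Pool.Agent.H26.SHL

theorem pf_DTB (hSUM : T_SUM) (hBLM : T_BLM) : T_DTB := by
  intro X K _ _ D U Y N T₀ 𝓛 Lf dc nar gd Fam henv t S htT hDT
  have key : ∀ (Q : Finset X) (t S : ℕ), DT 𝓛 Lf Q t S → (∀ c ∈ bl 𝓛 t {Q}, Fam c) →
      8 * ∑ x ∈ Q, D x ≤ Q.card + 8 * S * U * Y := by
    intro Q t S h
    induction h with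
    | leaf Q t hL =>
      intro hF
      have hQ : Q ∈ bl 𝓛 t {Q} :=
        (hBLM X 𝓛 {Q} {Q} t t (Finset.Subset.refl _) le_rfl).2.1 (Finset.mem_singleton_self Q)
      obtain ⟨h1, h2, -, -⟩ := hSUM X K D U Y N T₀ 𝓛 Lf dc nar gd Fam henv Q (hF Q hQ)
      rw [h2 hL, Finset.card_empty] at h1
      push_cast at h1 ⊢
      linarith
    | node Q A t s₁ s₂ hA _ _ ih₁ ih₂ =>
      intro hF
      have hb := (hBLM X 𝓛 {Q} {Q} t t (Finset.Subset.refl _) le_rfl).2.2.1 Q
        (Finset.mem_singleton_self Q) A hA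
      have h1 := ih₁ fun c hc => hF c (hb.1 hc)
      have h2 := ih₂ fun c hc => hF c (hb.2 hc)
      have h3 : ∑ x ∈ Q ∩ A, D x + ∑ x ∈ Q \ A, D x = ∑ x ∈ Q, D x :=
        Finset.sum_inter_add_sum_sdiff Q A D
      have h4 : ((Q ∩ A).card : ℝ) + (Q \ A).card = Q.card := by
        exact_mod_cast Finset.card_inter_add_card_sdiff Q A
      rw [← h3, ← h4]
      push_cast
      linarith
  have h1 := key univ t S hDT fun c hc => henv.f1 c
    ((hBLM X 𝓛 {univ} {univ} t T₀ (Finset.Subset.refl _) htT).1 hc)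
  have h2 := henv.full
  rw [Finset.card_univ] at h1
  linarith

end Pool.Agent.H26.SHL
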